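import Pool.Agent.Helper386.D5V.Helper386_FF_Div

/-!
# Project LG, part A1: specialisation of places of a rational function field
-/

set_option autoImplicit false
set_option linter.overlappingInstances false
set_option linter.unusedSectionVars false

namespace Pool.Agent.N78.LG

open FF Polynomial IntermediateField

section

variable {k K : Type} [Field k] [Field K] [Algebra k K] (P : Place k K)

lemma reg_aeval {s : K} (hs : P.Reg s) (p : k[X]) : P.Reg (aeval s p) := by
  induction p using Polynomial.induction_on' with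
  | add p q hp hq => rw [map_add]; exact P.reg_add hp hq
  | monomial n a =>
    rw [aeval_monomial]
    refine P.reg_mul (P.reg_const a) ?_
    rcases hs with rfl | h
    · rcases Nat.eq_zero_or_pos n with rfl | hn
      · rw [pow_zero]; exact P.reg_one
      · rw [zero_pow hn.ne']; exact P.reg_zero
    · right
      rw [P.ord_pow]
      positivity

/-- elements of positive order or zero -/
def Pos (f : K) : Prop := f = 0 ∨ 0 < P.ord f

lemma Pos.mul {f g : K} (hf : P.Reg f) (hg : Pos P g) : Pos P (f * g) := by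
  by_cases h1 : f = 0
  · left; simp [h1]
  rcases hg with hg | hg
  · left; simp [hg]
  by_cases h2 : g = 0
  · left; simp [h2]
  right
  rw [P.ord_mul h1 h2]
  have := (P.reg_iff h1).1 hf
  omega

lemma Pos.add {f g : K} (hf : Pos P f) (hg : Pos P g) : Pos P (f + g) := by
  by_cases h1 : f = 0
  · rwa [h1, zero_add]
  by_cases h2 : g = 0
  · rwa [h2, add_zero]
  by_cases h3 : f + g = 0
  · left; exact h3
  right
  have := P.ord_add h1 h2 h3
  have h4 := hf.resolve_left h1
  have h5 := hg.resolve_left h2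
  omega

lemma not_pos_one : ¬ Pos P 1 := by
  rintro (h | h)
  · exact one_ne_zero h
  · rw [P.ord_one] at h; exact lt_irrefl _ h

/-- an element which is a unit modulo positive elements has order zero -/
lemma ord_eq_zero {f u g v : K} (hf : P.Reg f) (hu : P.Reg u) (hg : Pos P g) (hv : P.Reg v)
    (h : u * f + v * g = 1) : P.ord f = 0 := by
  by_contra hne
  have hpos : Pos P f := by
    rcases hf with hf | hf
    · exact Or.inl hf
    · right; omega
  apply not_pos_one P
  rw [← h]
  exact Pos.add P (Pos.mul P hu hpos) (Pos.mul P hv hg)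

end

theorem trdeg_ratFunc' {k K : Type} [Field k] [Field K] [Algebra k K] {n : ℕ}
    (htr : Algebra.trdeg k K = n) : Algebra.trdeg k (RatFunc K) = (n + 1 : ℕ) := by
  have h1 : Algebra.trdeg K (Polynomial K) = 1 := Polynomial.trdeg_of_isDomain
  have h2 : Algebra.IsAlgebraic (Polynomial K) (RatFunc K) :=
    IsLocalization.isAlgebraic _ (nonZeroDivisors (Polynomial K))
  have h3 : Algebra.trdeg (Polynomial K) (RatFunc K) = 0 := trdeg_eq_zero
  have h4 := trdeg_add_eq k K (A := Polynomial K)
  have h5 := trdeg_add_eq k (Polynomial K) (A := RatFunc K)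
  rw [h3, add_zero, ← h4, htr, h1] at h5
  rw [← h5]
  push_cast
  rfl

/-- **Specialisation.** -/
theorem key {M Λ F : Type} [Field M] [Field Λ] [Field F] [Algebra M Λ] [Algebra Λ F]
    [Algebra M F] [IsScalarTower M Λ F] [IsAlgClosed Λ] [CharZero Λ] [IsFF Λ F] (s : F)
    (hs : Transcendental Λ s) (hsM : Transcendental M s) (w : Place M (RatFunc M))
    (hw : w.Reg RatFunc.X) :
    ∃ (Q : Place Λ F) (e : ℕ), 0 < e ∧ ¬ Q.ord s < 0 ∧ ∀ g : RatFunc M,
      Q.ord ((RatFunc.algEquivOfTranscendental s hsM g : M⟮s⟯) : F) = e * w.ord g := by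
  classical
  have hreg : ∀ p : M[X], w.Reg (algebraMap M[X] (RatFunc M) p) := by
    intro p
    have h1 := reg_aeval w hw p
    rwa [RatFunc.aeval_X_left_eq_algebraMap] at h1
  have hinj : Function.Injective (algebraMap M[X] (RatFunc M)) := RatFunc.algebraMap_injective M
  have hne : ∀ {p : M[X]}, p ≠ 0 → algebraMap M[X] (RatFunc M) p ≠ 0 := fun {p} hp h =>
    hp (hinj (by rw [h, map_zero]))
  -- a polynomial of positive order
  obtain ⟨t, ht0, ht1⟩ := w.surj
  have hpq : ∀ g : RatFunc M, g ≠ 0 → w.ord g = w.ord (algebraMap M[X] (RatFunc M) g.num) -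
      w.ord (algebraMap M[X] (RatFunc M) g.denom) := by
    intro g hg
    conv_lhs => rw [← RatFunc.num_div_denom g]
    exact w.ord_div (hne (RatFunc.num_ne_zero hg)) (hne g.denom_ne_zero)
  have hexp : ∃ π0 : M[X], Irreducible π0 ∧ 0 < w.ord (algebraMap M[X] (RatFunc M) π0) := by
    by_contra hcon
    push Not at hcon
    have h1 : ∀ p : M[X], p ≠ 0 → w.ord (algebraMap M[X] (RatFunc M) p) = 0 := by
      intro p
      induction p using UniqueFactorizationMonoid.induction_on_prime with
      | h₁ => exact fun h => absurd rfl h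
      | h₂ p hp =>
        intro _
        obtain ⟨c, hc, rfl⟩ := Polynomial.isUnit_iff.1 hp
        have : algebraMap M[X] (RatFunc M) (C c) = algebraMap M (RatFunc M) c := rfl
        rw [this]
        exact w.ord_const hc.ne_zero
      | h₃ a p ha hp ih =>
        intro _
        rw [map_mul, w.ord_mul (hne hp.ne_zero) (hne ha), ih ha]
        have h2 := hcon p hp.irreducible
        have h3 := (w.reg_iff (hne hp.ne_zero)).1 (hreg p)
        omega
    have h2 := hpq t ht0
    rw [h1 _ (RatFunc.num_ne_zero ht0), h1 _ t.denom_ne_zero] at h2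
    omega
  obtain ⟨π0, hirr, hpos⟩ := hexp
  have hπ0 : π0 ≠ 0 := hirr.ne_zero
  -- the root
  obtain ⟨a, ha⟩ := IsAlgClosed.exists_aeval_eq_zero Λ π0 (by
    have := Polynomial.degree_pos_of_irreducible hirr
    exact this.ne')
  -- the place
  have hta : Transcendental Λ (s - algebraMap Λ F a) := by
    intro h
    apply hs
    have h2 := h.add (isAlgebraic_algebraMap (A := F) a)
    rwa [sub_add_cancel] at h2
  obtain ⟨Q, hQ⟩ : ∃ Q : Place Λ F, 0 < Q.ord (s - algebraMap Λ F a) := by
    have hfin := IsFF.finite hta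
    obtain ⟨S, hS, -, hS2⟩ := zeros (k := Λ) (K := F) hta
    have hpos : 0 < Module.finrank Λ⟮s - algebraMap Λ F a⟯ F := Module.finrank_pos
    obtain ⟨P, hP⟩ : S.Nonempty := by
      rw [Finset.nonempty_iff_ne_empty]
      rintro rfl
      rw [Finset.sum_empty] at hS2
      omega
    exact ⟨P, (hS P).1 hP⟩
  have hsa : s - algebraMap Λ F a ≠ 0 := by
    intro h; rw [h, Q.ord_zero] at hQ; exact lt_irrefl _ hQ
  have hsreg : Q.Reg s := by
    have h1 : s = (s - algebraMap Λ F a) + algebraMap Λ F a := by ring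
    rw [h1]
    exact Q.reg_add (Or.inr hQ.le) (Q.reg_const a)
  have hregQ : ∀ p : M[X], Q.Reg (aeval s p) := by
    intro p
    have h1 : aeval s p = aeval s (p.map (algebraMap M Λ)) := by
      rw [Polynomial.aeval_map_algebraMap]
    rw [h1]
    exact reg_aeval Q hsreg _
  have hsne : ∀ {p : M[X]}, p ≠ 0 → aeval s p ≠ 0 := fun {p} hp h =>
    hp ((transcendental_iff.1 hsM) p h)
  -- the order of `π0(s)` is positive
  have hposQ : 0 < Q.ord (aeval s π0) := by
    have h1 : (X - C a : Λ[X]) ∣ π0.map (algebraMap M Λ) := by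
      rw [Polynomial.dvd_iff_isRoot, Polynomial.IsRoot, Polynomial.eval_map_algebraMap]
      exact ha
    obtain ⟨r, hr⟩ := h1
    have h2 : aeval s π0 = aeval s r * (s - algebraMap Λ F a) := by
      have h3 : aeval s π0 = aeval s (π0.map (algebraMap M Λ)) := by
        rw [Polynomial.aeval_map_algebraMap]
      rw [h3, hr, map_mul, map_sub, aeval_X, aeval_C, mul_comm]
    have h3 : Pos Q (aeval s π0) := by
      rw [h2]
      exact Pos.mul Q (reg_aeval Q hsreg r) (Or.inr hQ)
    exact h3.resolve_left (hsne hπ0)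
  have hcop : ∀ p : M[X], ¬ π0 ∣ p → w.ord (algebraMap M[X] (RatFunc M) p) = 0 ∧
      Q.ord (aeval s p) = 0 := by
    intro p hp
    obtain ⟨u, v, huv⟩ := (hirr.coprime_iff_not_dvd.2 hp).symm
    constructor
    · refine ord_eq_zero w (u := algebraMap M[X] (RatFunc M) u)
        (g := algebraMap M[X] (RatFunc M) π0) (v := algebraMap M[X] (RatFunc M) v)
        (hreg p) (hreg u) (Or.inr hpos) (hreg v) ?_
      rw [← map_mul, ← map_mul, ← map_add, huv, map_one]
    · refine ord_eq_zero Q (u := aeval s u) (g := aeval s π0) (v := aeval s v)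
        (hregQ p) (hregQ u) (Or.inr hposQ) (hregQ v) ?_
      rw [← map_mul, ← map_mul, ← map_add, huv, map_one]
  have hfac : ∀ p : M[X], p ≠ 0 → ∃ i : ℕ,
      w.ord (algebraMap M[X] (RatFunc M) p) = i * w.ord (algebraMap M[X] (RatFunc M) π0) ∧
      Q.ord (aeval s p) = i * Q.ord (aeval s π0) := by
    intro p hp
    obtain ⟨c, hc1, hc2⟩ := (FiniteMultiplicity.of_not_isUnit hirr.not_isUnit hp).exists_eq_pow_mul_and_not_dvd
    have hc0 : c ≠ 0 := by
      rintro rfl
      exact hc2 (dvd_zero _)
    refine ⟨multiplicity π0 p, ?_, ?_⟩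
    · rw [hc1, map_mul, map_pow, w.ord_mul (pow_ne_zero _ (hne hπ0)) (hne hc0), w.ord_pow,
        (hcop c hc2).1, add_zero, ← hc1]
    · rw [hc1, map_mul, map_pow, Q.ord_mul (pow_ne_zero _ (hsne hπ0)) (hsne hc0), Q.ord_pow,
        (hcop c hc2).2, add_zero, ← hc1]
  -- `w.ord π0 = 1`
  have hw1 : w.ord (algebraMap M[X] (RatFunc M) π0) = 1 := by
    obtain ⟨i, hi, -⟩ := hfac t.num (RatFunc.num_ne_zero ht0)
    obtain ⟨j, hj, -⟩ := hfac t.denom t.denom_ne_zero
    have h1 := hpq t ht0
    rw [ht1, hi, hj, ← sub_mul] at h1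
    exact (Int.isUnit_iff.1 (IsUnit.of_mul_eq_one_right _ h1.symm)).resolve_right (by omega)
  refine ⟨Q, (Q.ord (aeval s π0)).toNat, by omega, ?_, ?_⟩
  · intro h
    have hs0 : s ≠ 0 := by
      rintro rfl
      rw [Q.ord_zero] at h
      exact lt_irrefl _ h
    have := (Q.reg_iff hs0).1 hsreg
    omega
  · intro g
    have hc : ((Q.ord (aeval s π0)).toNat : ℤ) = Q.ord (aeval s π0) := Int.toNat_of_nonneg hposQ.le
    rw [hc]
    by_cases hg : g = 0
    · rw [hg, map_zero, w.ord_zero, mul_zero]
      exact Q.ord_zero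
    · have hval : ((RatFunc.algEquivOfTranscendental s hsM g : M⟮s⟯) : F) =
          aeval s g.num / aeval s g.denom := RatFunc.algEquivOfTranscendental_apply s hsM g
      rw [hval, Q.ord_div (hsne (RatFunc.num_ne_zero hg)) (hsne g.denom_ne_zero), hpq g hg]
      obtain ⟨i, hi, hi'⟩ := hfac g.num (RatFunc.num_ne_zero hg)
      obtain ⟨j, hj, hj'⟩ := hfac g.denom g.denom_ne_zero
      rw [hi, hj, hi', hj', hw1]
      ring

end Pool.Agent.N78.LG

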