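import Pool.Agent.N145.PL.Stm
import Pool.Agent.N78.LG.Key

/-!
# Project LG, part A1: `A¹`-uniruledness from a rational parametrization
-/

set_option autoImplicit false
set_option linter.overlappingInstances false
set_option linter.unusedSectionVars false

namespace Pool.Agent.N78.LG

open IntermediateField Module FF

theorem A1 : Pool.Agent.N145.PL.S_A1 := by
  classical
  intro m E Λ F _ _ _ _ _ _ _ _ _ _ _ hE hΛ ψ s hs h Bd hBd
  obtain ⟨S, hS⟩ := IntermediateField.fg_top ℂ E
  have h1 : ∀ e : E, ∃ p q : Polynomial Λ,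
      ψ e = Polynomial.aeval s p / Polynomial.aeval s q := fun e =>
    IntermediateField.mem_adjoin_simple_iff Λ (ψ e) |>.1 (h e)
  choose p q hpq using h1
  let T : Set Λ := ⋃ e ∈ S, (((p e).coeffs : Set Λ) ∪ ((q e).coeffs : Set Λ))
  have hTfin : T.Finite := by
    refine Set.Finite.biUnion S.finite_toSet fun e _ => ?_
    exact (Finset.finite_toSet _).union (Finset.finite_toSet _)
  let M : IntermediateField ℂ Λ := IntermediateField.adjoin ℂ T
  have hess : Algebra.EssFiniteType ℂ M :=
    IntermediateField.essFiniteType_iff.2 (IntermediateField.fg_adjoin_of_finite hTfin)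
  have hcoef : ∀ e ∈ S, ∀ i, (p e).coeff i ∈ M ∧ (q e).coeff i ∈ M := by
    intro e he i
    have h2 : ∀ f : Polynomial Λ, (f.coeffs : Set Λ) ⊆ T → f.coeff i ∈ M := by
      intro f hf
      by_cases h0 : f.coeff i = 0
      · rw [h0]
        exact zero_mem _
      · refine IntermediateField.subset_adjoin _ _ (hf ?_)
        exact Polynomial.coeff_mem_coeffs h0
    exact ⟨h2 _ (Set.subset_biUnion_of_mem (u := fun e => (((p e).coeffs : Set Λ) ∪
        ((q e).coeffs : Set Λ))) he |>.trans' Set.subset_union_left),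
      h2 _ (Set.subset_biUnion_of_mem (u := fun e => (((p e).coeffs : Set Λ) ∪
        ((q e).coeffs : Set Λ))) he |>.trans' Set.subset_union_right)⟩
  have hT1 : IsScalarTower ℂ M F := IsScalarTower.of_algebraMap_eq fun c => by
    rw [IsScalarTower.algebraMap_apply ℂ Λ F]
    rfl
  let R : IntermediateField M F := IntermediateField.adjoin M {s}
  have hRpoly : ∀ f : Polynomial Λ, (∀ i, f.coeff i ∈ M) → Polynomial.aeval s f ∈ R := by
    intro f hf
    rw [Polynomial.aeval_eq_sum_range]
    refine sum_mem fun i _ => ?_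
    rw [Algebra.smul_def]
    refine mul_mem ?_ (pow_mem (IntermediateField.mem_adjoin_simple_self M s) i)
    exact R.algebraMap_mem ⟨f.coeff i, hf i⟩
  have hmem : ∀ e, ψ e ∈ R.restrictScalars ℂ := by
    have h2 : (⊤ : IntermediateField ℂ E) ≤ (R.restrictScalars ℂ).comap ψ := by
      rw [← hS, IntermediateField.adjoin_le_iff]
      intro e he
      change ψ e ∈ R
      rw [hpq e]
      exact div_mem (hRpoly _ fun i => (hcoef e he i).1) (hRpoly _ fun i => (hcoef e he i).2)
    exact fun e => h2 trivial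
  have hsM : Transcendental M s := by
    intro h2
    exact hs (IsAlgebraic.tower_top Λ h2)
  let e1 : RatFunc M ≃ₐ[M] R := RatFunc.algEquivOfTranscendental s hsM
  let ψ' : E →ₐ[ℂ] R :=
    { toFun := fun e => ⟨ψ e, hmem e⟩
      map_one' := Subtype.ext (map_one _)
      map_mul' := fun a b => Subtype.ext (map_mul _ _ _)
      map_zero' := Subtype.ext (map_zero _)
      map_add' := fun a b => Subtype.ext (map_add _ _ _)
      commutes' := fun c => Subtype.ext (by
        change ψ (algebraMap ℂ E c) = _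
        rw [ψ.commutes]
        rfl) }
  let φ : E →ₐ[ℂ] RatFunc M := (e1.symm.restrictScalars ℂ : R →ₐ[ℂ] RatFunc M).comp ψ'
  have hφ : ∀ f : E, ((e1 (φ f) : R) : F) = ψ f := by
    intro f
    change ((e1 (e1.symm (ψ' f)) : R) : F) = ψ f
    rw [AlgEquiv.apply_symm_apply]
    rfl
  -- the transcendence degree of `M`
  have hMle : Algebra.trdeg ℂ M ≤ (m : ℕ) := by
    rw [← hΛ]
    exact trdeg_le_of_injective M.val (Subtype.val_injective)
  obtain ⟨m', hm'⟩ : ∃ m' : ℕ, Algebra.trdeg ℂ M = m' :=
    Cardinal.lt_aleph0.1 (hMle.trans_lt Cardinal.natCast_lt_aleph0)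
  have h3 : Algebra.trdeg ℂ (RatFunc M) = (m' + 1 : ℕ) := trdeg_ratFunc' hm'
  have h4 : Algebra.trdeg ℂ E ≤ Algebra.trdeg ℂ (RatFunc M) :=
    trdeg_le_of_injective φ φ.toRingHom.injective
  rw [hE, h3] at h4
  rw [hm'] at hMle
  have h5 : m + 1 ≤ m' + 1 := by exact_mod_cast h4
  have h6 : m' ≤ m := by exact_mod_cast hMle
  have h7 : m' = m := by omega
  refine ⟨M, inferInstance, inferInstance, φ, hess, ?_, ?_⟩
  · rw [hm', h7]
    push_cast
    rfl
  · intro w hw v e he hord hv
    have : CharZero Λ := charZero_of_injective_algebraMap (algebraMap ℂ Λ).injective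
    obtain ⟨Q, e2, he2, hQs, hQ⟩ := key (M := M) (Λ := Λ) (F := F) s hs hsM w hw
    apply hQs
    refine hBd Q v (e2 * e) (Nat.mul_pos he2 he) (fun f => ?_) hv
    have h8 := hQ (φ f)
    have h9 : ((RatFunc.algEquivOfTranscendental s hsM (φ f) : M⟮s⟯) : F) = ψ f := hφ f
    rw [h9] at h8
    rw [h8, hord f]
    push_cast
    ring

end Pool.Agent.N78.LG
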